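import Pool.Agent.Q168.RC.Ex
import Pool.Agent.Results.MP_c40b92_nt.CubicEquations

/-!
# Archimedean unit balls and varieties with rational curves of unbounded degree

Let `k` be a number field and let `σ : k → ℂ` be an embedding whose image is not contained in `ℝ`
(for a totally complex field this is every embedding). *Good sets* (`Good`) are sets of points with
coordinates in `k`: the least class which contains
* the sets `S` which contain rational curves over `k` of unbounded degree (`Curved`): for every `D`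
  there is a rational curve with values in `S` such that each polynomial of degree at most `D` which
  vanishes on the curve vanishes on `S`;
* affine spaces and smooth quartic double covers `w² = F(1, z₁, …, z_n)`, `w ≠ 0`, `n ≥ 2`;
and is closed under finite unions, finite products and dominated images.

We consider finite unions `D` of sets of the following three kinds: the sets
`{x | ∃ z ∈ kⁿ, f(x, z) = 0}` with `f` over `k` of total degree at most three (see
`CubicEquations`), the sets of the values of a rational function at the points of a good set, and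
thin sets. If `D` is contained in the closed unit ball `B = {x ∈ k | |σ(x)| ≤ 1}`, then the sets of
the second kind are finite and the union is thin; so `B`, which is not thin, is not a union of this
kind.

Elliptic surfaces `D(t) y² = x³ + A(t) x + B(t)` with a point over `k(t)` whose abscissa has degree
larger than `5/3 max(deg A, deg B)`, and all Kummer surfaces `f(t) y² = f(x)` with a separable cubic
polynomial `f = x³ + c x + d`, are good.
-/

set_option autoImplicit false

namespace Pool.Agent.Results.MP_c40b92_nt.RationalCurves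

open MvPolynomial Pool.Agent.TH783.CE Pool.Agent.TH783.UB Pool.Agent.Q168.RC

/-- The values of `p / q` at the points `x ∈ S` with `q(x) ≠ 0`. -/
def values {K : Type} [Field K] {σ : Type} (S : Set (σ → K)) (p q : MvPolynomial σ K) : Set K :=
  {t | ∃ x ∈ S, eval x q ≠ 0 ∧ t = eval x p / eval x q}

/-- A finite union of sets of the three kinds. -/
def Union {K : Type} [Field K] {r l : ℕ} (n : Fin r → ℕ) (f : ∀ i, MvPolynomial (Fin (n i + 1)) K)
    (σ : Fin l → Type) (S : ∀ i, Set (σ i → K)) (p q : ∀ i, MvPolynomial (σ i) K) (T : Set K) :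
    Set K :=
  {x | (∃ i, ∃ z : Fin (n i) → K, eval (Fin.cons x z : Fin (n i + 1) → K) (f i) = 0) ∨
    (∃ i, x ∈ values (S i) (p i) (q i)) ∨ x ∈ T}

theorem result :
    -- the closed unit ball is not such a union
    (∀ (k : Type) [Field k] [NumberField k] (τ : k →+* ℂ), (∃ z : k, (τ z).im ≠ 0) →
      ∀ (r l : ℕ) (n : Fin r → ℕ) (f : ∀ i, MvPolynomial (Fin (n i + 1)) k),
      (∀ i, (f i).totalDegree ≤ 3) →
      ∀ (σ : Fin l → Type) (S : ∀ i, Set (σ i → k)), (∀ i, Good k (S i)) →
      ∀ (p q : ∀ i, MvPolynomial (σ i) k) (T : Set k), Thin T →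
      Thin {x : k | x ≠ 0 ∧ x⁻¹ ∈ T} →
      Union n f σ S p q T ≠ {x : k | ‖τ x‖ ≤ 1}) ∧
    -- such unions in the ball
    (∀ (k : Type) [Field k] [NumberField k] (τ : k →+* ℂ), (∃ z : k, (τ z).im ≠ 0) →
      ∀ (r l : ℕ) (n : Fin r → ℕ) (f : ∀ i, MvPolynomial (Fin (n i + 1)) k),
      (∀ i, (f i).totalDegree ≤ 3) →
      ∀ (σ : Fin l → Type) (S : ∀ i, Set (σ i → k)), (∀ i, Good k (S i)) →
      ∀ (p q : ∀ i, MvPolynomial (σ i) k) (T : Set k), Thin T →
      Thin {x : k | x ≠ 0 ∧ x⁻¹ ∈ T} →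
      Union n f σ S p q T ⊆ {x : k | ‖τ x‖ ≤ 1} →
      (∀ i, (values (S i) (p i) (q i)).Finite) ∧
      Thin (Union n f σ S p q T) ∧
      Thin {x : k | x ≠ 0 ∧ x⁻¹ ∈ Union n f σ S p q T} ∧
      ∀ B : ℤ, ∃ m : ℤ, B < m ∧ (m : k)⁻¹ ∉ Union n f σ S p q T) ∧
    -- elliptic surfaces with a point of large degree over the rational function field
    (∀ (K : Type) [Field K] [CharZero K] (D A B u v s r : Polynomial K), D ≠ 0 →
      4 * A ^ 3 + 27 * B ^ 2 ≠ 0 → Pnt D A B u v s r →
      5 * max A.natDegree B.natDegree < 3 * max u.natDegree v.natDegree →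
      Good K (EllSurf D A B)) ∧
    (∀ (K : Type) [Field K] [CharZero K] (c d : K), 4 * c ^ 3 + 27 * d ^ 2 ≠ 0 →
      Good K {z : Fin 3 → K | z 0 ^ 3 + c * z 0 + d ≠ 0 ∧
        (z 0 ^ 3 + c * z 0 + d) * z 2 ^ 2 = z 1 ^ 3 + c * z 1 + d}) := by
  have main : ∀ (k : Type) [Field k] [NumberField k] (τ : k →+* ℂ), (∃ z : k, (τ z).im ≠ 0) →
      ∀ (r l : ℕ) (n : Fin r → ℕ) (f : ∀ i, MvPolynomial (Fin (n i + 1)) k),
      (∀ i, (f i).totalDegree ≤ 3) →
      ∀ (σ : Fin l → Type) (S : ∀ i, Set (σ i → k)), (∀ i, Good k (S i)) →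
      ∀ (p q : ∀ i, MvPolynomial (σ i) k) (T : Set k), Thin T →
      Thin {x : k | x ≠ 0 ∧ x⁻¹ ∈ T} →
      Union n f σ S p q T ⊆ {x : k | ‖τ x‖ ≤ 1} →
      (∀ i, (values (S i) (p i) (q i)).Finite) ∧
      Thin (Union n f σ S p q T) ∧
      Thin {x : k | x ≠ 0 ∧ x⁻¹ ∈ Union n f σ S p q T} ∧
      ∀ B : ℤ, ∃ m : ℤ, B < m ∧ (m : k)⁻¹ ∉ Union n f σ S p q T := by
    rintro k _ _ τ ⟨w, hw⟩ r l n f hf σ S hS p q T hT hT' h
    have hfin : ∀ i, (values (S i) (p i) (q i)).Finite := fun i =>
      (hS i).values_finite (flat_ball τ hw) τ _ _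
        fun t ht => h (Or.inr (Or.inl ⟨i, ht⟩))
    have hfU : (⋃ i, values (S i) (p i) (q i)).Finite := Set.finite_iUnion hfin
    obtain ⟨h1, h2, -⟩ := CubicEquations.result.2 k τ ⟨w, hw⟩ r n f hf fun x hx => h (Or.inl hx)
    have hthin : Thin (Union n f σ S p q T) := by
      refine (h1.union ((Thin.of_finite hfU).union hT)).mono ?_
      rintro x (hx | ⟨i, hx⟩ | hx)
      · exact Or.inl hx
      · exact Or.inr (Or.inl (Set.mem_iUnion.2 ⟨i, hx⟩))
      · exact Or.inr (Or.inr hx)
    have hthin' : Thin {x : k | x ≠ 0 ∧ x⁻¹ ∈ Union n f σ S p q T} := by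
      refine (h2.union ((Thin.of_finite (hfU.image fun x => x⁻¹)).union hT')).mono ?_
      rintro x ⟨hx0, hx | ⟨i, hx⟩ | hx⟩
      · exact Or.inl ⟨hx0, hx⟩
      · exact Or.inr (Or.inl ⟨x⁻¹, Set.mem_iUnion.2 ⟨i, hx⟩, inv_inv x⟩)
      · exact Or.inr (Or.inr ⟨hx0, hx⟩)
    refine ⟨hfin, hthin, hthin', fun B => ?_⟩
    obtain ⟨m, hm, hm'⟩ := hthin'.exists_int (max B 0)
    refine ⟨m, (le_max_left _ _).trans_lt hm, fun h3 => hm' ⟨?_, h3⟩⟩
    exact Int.cast_ne_zero.2 ((le_max_right _ _).trans_lt hm).ne'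
  refine ⟨fun k _ _ τ hτ r l n f hf σ S hS p q T hT hT' heq => ?_, main, good_ell, good_kummer⟩
  obtain ⟨-, -, -, h2⟩ := main k τ hτ r l n f hf σ S hS p q T hT hT' heq.subset
  obtain ⟨m, hm, hm'⟩ := h2 1
  refine hm' ?_
  rw [heq]
  show ‖τ (m : k)⁻¹‖ ≤ 1
  rw [map_inv₀, map_intCast, norm_inv]
  refine inv_le_one_of_one_le₀ ?_
  rw [Complex.norm_intCast]
  exact_mod_cast (hm.le.trans (le_abs_self m))

end Pool.Agent.Results.MP_c40b92_nt.RationalCurves
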